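import Pool.Agent.E8helper59.TS.Stm4

/-! Piece TS34: an inequality. -/

set_option autoImplicit false

namespace Pool.Agent.E8helper79.TS

theorem t_PRD : Pool.Agent.E8helper59.TS.S_PRD := by
  intro d
  induction d with
  | zero =>
    intro ℓ _
    simp
  | succ d ih =>
    intro ℓ hℓ
    have h1 := ih (fun j => ℓ j.castSucc) (fun j => hℓ _)
    have hQ : 0 ≤ ∑ j : Fin d, ∑ k : Fin d,
        if j < k then ℓ j.castSucc * ℓ k.castSucc else 0 :=
      Finset.sum_nonneg fun j _ => Finset.sum_nonneg fun k _ => by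
        split_ifs
        · exact mul_nonneg (hℓ _) (hℓ _)
        · exact le_rfl
    have e1 : ∑ j : Fin (d + 1), ∑ k : Fin (d + 1), (if j < k then ℓ j * ℓ k else 0) =
        ∑ j : Fin d, ∑ k : Fin d, (if j < k then ℓ j.castSucc * ℓ k.castSucc else 0) +
          (∑ j : Fin d, ℓ j.castSucc) * ℓ (Fin.last d) := by
      rw [Fin.sum_univ_castSucc]
      have h2 : ∑ k : Fin (d + 1), (if Fin.last d < k then ℓ (Fin.last d) * ℓ k else 0) = 0 :=
        Finset.sum_eq_zero fun k _ => if_neg (not_lt.2 (Fin.le_last k))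
      rw [h2, add_zero, Finset.sum_mul, ← Finset.sum_add_distrib]
      refine Finset.sum_congr rfl fun j _ => ?_
      rw [Fin.sum_univ_castSucc, if_pos (Fin.castSucc_lt_last j)]
      rfl
    rw [Fin.prod_univ_castSucc, Fin.sum_univ_castSucc, e1]
    have h3 := mul_le_mul_of_nonneg_right h1
      (show 0 ≤ 1 + ℓ (Fin.last d) by have := hℓ (Fin.last d); linarith)
    have h4 := mul_nonneg hQ (hℓ (Fin.last d))
    linarith

end Pool.Agent.E8helper79.TS
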